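import Pool.Agent.Q113.VeeJ

/-!
# Saturation and extremal numbers of `J_s` and `∨_s`

For all `s ≥ 3` and `n ≥ 1` the four numbers `sat(n,n,J_s)`, `ex(n,n,J_s)`, `sat*([n]², ∨_s)` and
`La*([n]², ∨_s)` are equal; their common value is `n²` for `n < s` and `(s-1)(2n-s+1)` for `n ≥ s`.
-/

set_option autoImplicit false

namespace Pool.Agent.Results.MP_eab1c6_co.SaturationEqualsExtremal

open Finset Q113.Pur

/-! ### Matrices -/

/-- 0-1 matrices with `n` rows and `m` columns (`true` is `1`) -/
abbrev Mat (n m : ℕ) : Type := Fin n → Fin m → Bool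

/-- `A` contains `M`: some submatrix of `A` (rows and columns in their order) has a `1` wherever
`M` has a `1`. -/
def Contains {n m k l : ℕ} (A : Mat n m) (M : Mat k l) : Prop :=
  ∃ (f : Fin k → Fin n) (g : Fin l → Fin m), StrictMono f ∧ StrictMono g ∧
    ∀ i j, M i j = true → A (f i) (g j) = true

/-- the number of 1-entries -/
def ones {n m : ℕ} (A : Mat n m) : ℕ :=
  (univ.filter fun p : Fin n × Fin m => A p.1 p.2 = true).card

/-- `A` with the entry `(i, j)` changed to `1` -/
def setOne {n m : ℕ} (A : Mat n m) (i : Fin n) (j : Fin m) : Mat n m :=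
  fun i' j' => if i' = i ∧ j' = j then true else A i' j'

/-- `ex(n, m, M)` -/
noncomputable def ex (n m : ℕ) {k l : ℕ} (M : Mat k l) : ℕ :=
  sSup {x | ∃ A : Mat n m, ¬ Contains A M ∧ x = ones A}

/-- `sat(n, m, M)` -/
noncomputable def sat (n m : ℕ) {k l : ℕ} (M : Mat k l) : ℕ :=
  sInf {x | ∃ A : Mat n m, (¬ Contains A M ∧
    ∀ i j, A i j = false → Contains (setOne A i j) M) ∧ x = ones A}

/-- The pattern `J_s`; in 1-based indices its 1-entries are `(i, i+1)` for `1 ≤ i ≤ s-1` and
`(s, 1)`. -/
def J (s : ℕ) : Mat s s := fun i j => decide (j.val = i.val + 1 ∨ (i.val + 1 = s ∧ j.val = 0))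

/-! ### Posets -/

/-- the elements of `∨_s` -/
inductive Vee (s : ℕ) : Type
  | a : Vee s
  | b (i : Fin s) : Vee s

/-- the order of `∨_s`: `a < b i` for all `i`, and nothing else -/
def Vee.le {s : ℕ} : Vee s → Vee s → Prop
  | .a, _ => True
  | .b _, .a => False
  | .b i, .b j => i = j

/-- `F ⊆ [n]²` contains a strong (induced) copy of `∨_s` -/
def HasStrongVee (s : ℕ) {n : ℕ} (F : Finset (Fin n × Fin n)) : Prop :=
  ∃ f : Vee s → Fin n × Fin n, Function.Injective f ∧ (∀ p, f p ∈ F) ∧
    ∀ p q, Vee.le p q ↔ f p ≤ f q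

/-- `La*([n]², ∨_s)` -/
noncomputable def LaStar (n s : ℕ) : ℕ :=
  sSup {x | ∃ F : Finset (Fin n × Fin n), ¬ HasStrongVee s F ∧ x = F.card}

/-- `sat*([n]², ∨_s)` -/
noncomputable def satStar (n s : ℕ) : ℕ :=
  sInf {x | ∃ F : Finset (Fin n × Fin n), (¬ HasStrongVee s F ∧
    ∀ y, y ∉ F → HasStrongVee s (insert y F)) ∧ x = F.card}

/-! ### General facts on saturation -/

theorem sSup_sInf {α : Type*} [Fintype α] [DecidableEq α] {P : Finset α → Prop} (h0 : ¬ P ∅)
    {v : ℕ} (hv : ∀ F : Finset α, ¬ P F → (∀ y, y ∉ F → P (insert y F)) → F.card = v) :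
    sSup {x | ∃ F : Finset α, ¬ P F ∧ x = F.card} = v ∧
    sInf {x | ∃ F : Finset α, (¬ P F ∧ ∀ y, y ∉ F → P (insert y F)) ∧ x = F.card} = v := by
  classical
  obtain ⟨F, hF, hmax⟩ := exists_max_image ((univ : Finset (Finset α)).filter fun F => ¬ P F)
    card ⟨∅, by simp [h0]⟩
  rw [mem_filter] at hF
  have hsat : ∀ y, y ∉ F → P (insert y F) := by
    intro y hy
    by_contra hcon
    have := hmax (insert y F) (mem_filter.2 ⟨mem_univ _, hcon⟩)
    rw [card_insert_of_notMem hy] at this
    omega
  have hFv := hv F hF.2 hsat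
  constructor
  · apply le_antisymm
    · have hne : {x | ∃ F : Finset α, ¬ P F ∧ x = F.card}.Nonempty := ⟨F.card, F, hF.2, rfl⟩
      refine csSup_le hne ?_
      rintro x ⟨F', hF', rfl⟩
      rw [← hFv]
      exact hmax F' (mem_filter.2 ⟨mem_univ _, hF'⟩)
    · apply le_csSup
      · refine ⟨v, ?_⟩
        rintro x ⟨F', hF', rfl⟩
        rw [← hFv]
        exact hmax F' (mem_filter.2 ⟨mem_univ _, hF'⟩)
      · exact ⟨F, hF.2, hFv.symm⟩
  · have : {x | ∃ F : Finset α, (¬ P F ∧ ∀ y, y ∉ F → P (insert y F)) ∧ x = F.card} = {v} := by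
      ext x
      constructor
      · rintro ⟨F', ⟨h1, h2⟩, rfl⟩
        exact hv F' h1 h2
      · rintro rfl
        exact ⟨F, ⟨hF.2, hsat⟩, hFv.symm⟩
    rw [this, csInf_singleton]

/-! ### The fork -/

/-- reflected coordinates -/
def phi {n : ℕ} (p : Fin n × Fin n) : Cell := (n - 1 - p.1.val, n - 1 - p.2.val)

theorem phi_injective {n : ℕ} : Function.Injective (phi (n := n)) := by
  rintro ⟨a, b⟩ ⟨c, d⟩ h
  simp only [phi, Prod.mk.injEq] at h
  have := a.isLt
  have := b.isLt
  have := c.isLt
  have := d.isLt
  apply Prod.ext <;> apply Fin.ext <;> simp only <;> omega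

theorem phi_le {n : ℕ} (p q : Fin n × Fin n) :
    p ≤ q ↔ (phi q).1 ≤ (phi p).1 ∧ (phi q).2 ≤ (phi p).2 := by
  obtain ⟨a, b⟩ := p
  obtain ⟨c, d⟩ := q
  simp only [Prod.mk_le_mk, Fin.le_def, phi]
  have := a.isLt
  have := b.isLt
  have := c.isLt
  have := d.isLt
  omega

theorem vee_iff {s n : ℕ} (hs : 2 ≤ s) (F : Finset (Fin n × Fin n)) :
    HasStrongVee s F ↔ HasV s (F.image phi) := by
  constructor
  · rintro ⟨f, hinj, hF, hle⟩
    refine ⟨phi (f .a), mem_image_of_mem _ (hF _), univ.image fun i => phi (f (.b i)), ?_, ?_,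
      ?_, ?_⟩
    · intro c hc
      rw [mem_image] at hc
      obtain ⟨i, _, rfl⟩ := hc
      exact mem_image_of_mem _ (hF _)
    · intro p hp q hq hpq
      rw [mem_image] at hp hq
      obtain ⟨i, _, rfl⟩ := hp
      obtain ⟨j, _, rfl⟩ := hq
      have hij : i ≠ j := by rintro rfl; exact hpq rfl
      have h1 := hle (.b i) (.b j)
      have h2 := hle (.b j) (.b i)
      rw [phi_le] at h1 h2
      simp only [Vee.le] at h1 h2
      have h3 := mt h1.2 hij
      have h4 := mt h2.2 hij.symm
      omega
    · rw [card_image_of_injective, card_univ, Fintype.card_fin]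
      intro i j hij
      have := hinj (phi_injective hij)
      simpa using this
    · intro c hc
      rw [mem_image] at hc
      obtain ⟨i, _, rfl⟩ := hc
      have h1 := (hle .a (.b i)).1 trivial
      rwa [phi_le] at h1
  · rintro ⟨p, hp, C, hC, hAC, hcard, hb⟩
    rw [mem_image] at hp
    obtain ⟨x0, hx0, rfl⟩ := hp
    have hpre : ∀ c : C, ∃ x ∈ F, phi x = c := fun c => by
      have := hC c.2
      rwa [mem_image] at this
    choose pre hpreF hpre using hpre
    let e : Fin s ≃ C := (C.equivFinOfCardEq hcard).symm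
    have hne : ∀ c ∈ C, c ≠ phi x0 := by
      rintro c hc rfl
      have h2 : 1 < C.card := by omega
      obtain ⟨c', hc', hne⟩ := exists_mem_ne h2 (phi x0)
      have h3 := hb c' hc'
      rcases hAC c' hc' _ hc hne with h4 | h4 <;> omega
    let f : Vee s → Fin n × Fin n := fun
      | .a => x0
      | .b i => pre (e i)
    have hab : ∀ i, x0 ≠ pre (e i) := by
      intro i h
      apply hne (e i) (e i).2
      rw [← hpre, ← h]
    refine ⟨f, ?_, ?_, ?_⟩
    · intro p q hpq
      cases p with
      | a =>
        cases q with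
        | a => rfl
        | b j => exact absurd hpq (hab j)
      | b i =>
        cases q with
        | a => exact absurd hpq.symm (hab i)
        | b j =>
          have h1 : pre (e i) = pre (e j) := hpq
          have h2 : (e i : Cell) = e j := by rw [← hpre, ← hpre, h1]
          have h3 := e.injective (Subtype.ext h2)
          rw [h3]
    · intro p
      cases p with
      | a => exact hx0
      | b i => exact hpreF _
    · intro p q
      cases p with
      | a =>
        simp only [Vee.le, true_iff]
        cases q with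
        | a => exact le_refl _
        | b j =>
          show x0 ≤ pre (e j)
          rw [phi_le, hpre]
          exact hb _ (e j).2
      | b i =>
        cases q with
        | a =>
          simp only [Vee.le, false_iff]
          intro h
          have h1 : pre (e i) ≤ x0 := h
          have h2 : x0 ≤ pre (e i) := by
            rw [phi_le, hpre]
            exact hb _ (e i).2
          exact hab i (le_antisymm h2 h1)
        | b j =>
          simp only [Vee.le]
          constructor
          · rintro rfl
            exact le_refl _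
          · intro h
            have h1 : pre (e i) ≤ pre (e j) := h
            rw [phi_le, hpre, hpre] at h1
            by_contra hij
            have hne' : (e i : Cell) ≠ e j := fun h => hij (e.injective (Subtype.ext h))
            rcases hAC _ (e i).2 _ (e j).2 hne' with h4 | h4 <;> omega

theorem phi_surj {n : ℕ} {x : Cell} (hx : x ∈ box n) : ∃ p : Fin n × Fin n, phi p = x := by
  rw [mem_box] at hx
  refine ⟨(⟨n - 1 - x.1, by omega⟩, ⟨n - 1 - x.2, by omega⟩), ?_⟩
  simp only [phi]
  apply Prod.ext <;> simp only <;> omega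

theorem vee_card {s n : ℕ} (hs : 2 ≤ s) (F : Finset (Fin n × Fin n)) (h1 : ¬ HasStrongVee s F)
    (h2 : ∀ y, y ∉ F → HasStrongVee s (insert y F)) : F.card = value n s := by
  obtain ⟨k, rfl⟩ : ∃ k, s = k + 1 := ⟨s - 1, by omega⟩
  have hsat : VSat n (k + 1) (F.image phi) := by
    refine ⟨?_, ?_, ?_⟩
    · intro x hx
      rw [mem_image] at hx
      obtain ⟨p, _, rfl⟩ := hx
      rw [mem_box]
      have := p.1.isLt
      have := p.2.isLt
      simp only [phi]
      omega
    · rwa [← vee_iff hs]
    · intro x hx hxF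
      obtain ⟨p, rfl⟩ := phi_surj hx
      rw [← image_insert, ← vee_iff hs]
      apply h2
      intro hp
      exact hxF (mem_image_of_mem _ hp)
  rw [← hsat.card_eq, card_image_of_injective _ phi_injective]

theorem vee_numbers {s n : ℕ} (hs : 2 ≤ s) : LaStar n s = value n s ∧ satStar n s = value n s := by
  apply sSup_sInf (P := fun F : Finset (Fin n × Fin n) => HasStrongVee s F)
  · rintro ⟨f, _, hf, _⟩
    exact absurd (hf .a) (notMem_empty _)
  · exact vee_card hs

/-! ### The pattern `J_s` -/

/-- the matrix with the given 1-entries -/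
def matOf {n : ℕ} (S : Finset (Fin n × Fin n)) : Mat n n := fun i j => decide ((i, j) ∈ S)

theorem ones_matOf {n : ℕ} (S : Finset (Fin n × Fin n)) : ones (matOf S) = S.card := by
  unfold ones matOf
  congr 1
  ext p
  simp

theorem matOf_surj {n : ℕ} (A : Mat n n) : ∃ S, matOf S = A := by
  refine ⟨univ.filter fun p : Fin n × Fin n => A p.1 p.2 = true, ?_⟩
  funext i j
  simp [matOf]

theorem setOne_matOf {n : ℕ} (S : Finset (Fin n × Fin n)) (i j : Fin n) :
    setOne (matOf S) i j = matOf (insert (i, j) S) := by
  funext i' j'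
  simp only [setOne, matOf, mem_insert, Prod.mk.injEq]
  split_ifs with h
  · simp [h]
  · simp [h]

/-- reflected columns -/
def psi {n : ℕ} (p : Fin n × Fin n) : Cell := (p.1.val, n - 1 - p.2.val)

theorem psi_injective {n : ℕ} : Function.Injective (psi (n := n)) := by
  rintro ⟨a, b⟩ ⟨c, d⟩ h
  simp only [psi, Prod.mk.injEq] at h
  have := b.isLt
  have := d.isLt
  apply Prod.ext <;> apply Fin.ext <;> simp only <;> omega

theorem J_iff {k n : ℕ} (S : Finset (Fin n × Fin n)) :
    Contains (matOf S) (J (k + 2)) ↔ HasJ (k + 1) (S.image psi) := by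
  constructor
  · rintro ⟨f, g, hf, hg, h⟩
    have h1 : ∀ i : Fin (k + 1), (f i.castSucc, g i.succ) ∈ S := by
      intro i
      have := h i.castSucc i.succ (by simp [J])
      simpa [matOf] using this
    have h2 : (f (Fin.last (k + 1)), g 0) ∈ S := by
      have := h (Fin.last (k + 1)) 0 (by simp [J])
      simpa [matOf] using this
    refine ⟨psi (f (Fin.last (k + 1)), g 0), mem_image_of_mem _ h2,
      univ.image fun i : Fin (k + 1) => psi (f i.castSucc, g i.succ), ?_, ?_, ?_, ?_⟩
    · intro c hc
      rw [mem_image] at hc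
      obtain ⟨i, _, rfl⟩ := hc
      exact mem_image_of_mem _ (h1 i)
    · have key : ∀ i j : Fin (k + 1), i < j →
          (psi (f i.castSucc, g i.succ)).1 < (psi (f j.castSucc, g j.succ)).1 ∧
          (psi (f j.castSucc, g j.succ)).2 < (psi (f i.castSucc, g i.succ)).2 := by
        intro i j hij
        have e1 : f i.castSucc < f j.castSucc := hf (by simpa using hij)
        have e2 : g i.succ < g j.succ := hg (by simpa using hij)
        rw [Fin.lt_def] at e1 e2
        have := (g j.succ).isLt
        simp only [psi]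
        omega
      intro p hp q hq hpq
      rw [mem_image] at hp hq
      obtain ⟨i, _, rfl⟩ := hp
      obtain ⟨j, _, rfl⟩ := hq
      rcases lt_trichotomy i j with hij | rfl | hij
      · exact Or.inl (key i j hij)
      · exact absurd rfl hpq
      · have := key j i hij
        exact Or.inr ⟨this.1, this.2⟩
    · rw [card_image_of_injective, card_univ, Fintype.card_fin]
      intro i j hij
      have h3 := psi_injective hij
      rw [Prod.mk.injEq] at h3
      exact Fin.castSucc_injective _ (hf.injective h3.1)
    · intro c hc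
      rw [mem_image] at hc
      obtain ⟨i, _, rfl⟩ := hc
      have e1 : f i.castSucc < f (Fin.last (k + 1)) := hf (Fin.castSucc_lt_last i)
      have e2 : g 0 < g i.succ := hg (Fin.succ_pos i)
      rw [Fin.lt_def] at e1 e2
      have := (g i.succ).isLt
      simp only [psi]
      omega
  · rintro ⟨p, hp, C, hC, hAC, hcard, hb⟩
    rw [mem_image] at hp
    obtain ⟨x0, hx0, rfl⟩ := hp
    have hcard' : (C.image Prod.fst).card = k + 1 := by
      rw [card_image_of_injOn hAC.fst_inj, hcard]
    let e := (C.image Prod.fst).orderEmbOfFin hcard'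
    have hrow : ∀ i : Fin (k + 1), ∃ x ∈ S, psi x ∈ C ∧ (psi x).1 = e i := by
      intro i
      have h1 := (C.image Prod.fst).orderEmbOfFin_mem hcard' i
      rw [mem_image] at h1
      obtain ⟨c, hc, h2⟩ := h1
      have h3 := hC hc
      rw [mem_image] at h3
      obtain ⟨x, hx, rfl⟩ := h3
      exact ⟨x, hx, hc, h2⟩
    choose x hxS hxC hxe using hrow
    have hmono : ∀ i j : Fin (k + 1), i < j → (x i).1 < (x j).1 ∧ (x i).2 < (x j).2 := by
      intro i j hij
      have h1 : e i < e j := e.strictMono hij
      rw [← hxe, ← hxe] at h1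
      have hne : psi (x i) ≠ psi (x j) := by
        intro h
        rw [h] at h1
        exact lt_irrefl _ h1
      have h2 : (psi (x j)).2 < (psi (x i)).2 := by
        rcases hAC _ (hxC i) _ (hxC j) hne with h3 | h3
        · exact h3.2
        · omega
      simp only [psi] at h1 h2
      rw [Fin.lt_def, Fin.lt_def]
      have := (x i).2.isLt
      omega
    have hbelow : ∀ i : Fin (k + 1), (x i).1 < x0.1 ∧ x0.2 < (x i).2 := by
      intro i
      have h1 := hb _ (hxC i)
      simp only [psi] at h1
      rw [Fin.lt_def, Fin.lt_def]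
      have := (x i).2.isLt
      have := x0.2.isLt
      omega
    refine ⟨Fin.snoc (α := fun _ => Fin n) (fun i => (x i).1) x0.1,
      Fin.cons (α := fun _ => Fin n) x0.2 (fun i => (x i).2), ?_, ?_, ?_⟩
    · intro i j hij
      induction j using Fin.lastCases with
      | last =>
        induction i using Fin.lastCases with
        | last => exact absurd hij (lt_irrefl _)
        | cast i =>
          rw [Fin.snoc_castSucc, Fin.snoc_last]
          exact (hbelow i).1
      | cast j =>
        induction i using Fin.lastCases with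
        | last =>
          exfalso
          rw [Fin.lt_def] at hij
          have := j.isLt
          simp at hij
          omega
        | cast i =>
          rw [Fin.snoc_castSucc, Fin.snoc_castSucc]
          exact (hmono i j (by simpa using hij)).1
    · intro i j hij
      induction i using Fin.cases with
      | zero =>
        induction j using Fin.cases with
        | zero => exact absurd hij (lt_irrefl _)
        | succ j =>
          rw [Fin.cons_zero, Fin.cons_succ]
          exact (hbelow j).2
      | succ i =>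
        induction j using Fin.cases with
        | zero =>
          exfalso
          exact absurd hij (Fin.not_lt_zero _)
        | succ j =>
          rw [Fin.cons_succ, Fin.cons_succ]
          exact (hmono i j (by simpa using hij)).2
    · intro i j hij
      simp only [J, decide_eq_true_eq] at hij
      simp only [matOf, decide_eq_true_eq]
      rcases hij with hij | ⟨h1, h2⟩
      · have hi : i.val < k + 1 := by have := j.isLt; omega
        obtain ⟨i', rfl⟩ : ∃ i' : Fin (k + 1), i = i'.castSucc := ⟨⟨i.val, hi⟩, rfl⟩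
        have hj : j = i'.succ := by
          apply Fin.ext
          simpa using hij
        subst hj
        rw [Fin.snoc_castSucc, Fin.cons_succ]
        exact hxS i'
      · have hi : i = Fin.last (k + 1) := by
          apply Fin.ext
          simp only [Fin.val_last]
          omega
        have hj : j = 0 := Fin.ext h2
        subst hi hj
        rw [Fin.snoc_last, Fin.cons_zero]
        exact hx0

theorem psi_surj {n : ℕ} {x : Cell} (hx : x ∈ box n) : ∃ p : Fin n × Fin n, psi p = x := by
  rw [mem_box] at hx
  refine ⟨(⟨x.1, by omega⟩, ⟨n - 1 - x.2, by omega⟩), ?_⟩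
  simp only [psi]
  apply Prod.ext <;> simp only
  omega

theorem J_card {k n : ℕ} (hn : 1 ≤ n) (S : Finset (Fin n × Fin n))
    (h1 : ¬ Contains (matOf S) (J (k + 2)))
    (h2 : ∀ y, y ∉ S → Contains (matOf (insert y S)) (J (k + 2))) :
    S.card = value n (k + 2) := by
  have hsat : JSat n (k + 1) (S.image psi) := by
    refine ⟨?_, ?_, ?_⟩
    · intro x hx
      rw [mem_image] at hx
      obtain ⟨p, _, rfl⟩ := hx
      rw [mem_box]
      have := p.1.isLt
      have := p.2.isLt
      simp only [psi]
      omega
    · rwa [← J_iff]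
    · intro x hx hxF
      obtain ⟨p, rfl⟩ := psi_surj hx
      rw [← image_insert, ← J_iff]
      apply h2
      intro hp
      exact hxF (mem_image_of_mem _ hp)
  rw [← hsat.card_eq hn, card_image_of_injective _ psi_injective]

theorem J_numbers {k n : ℕ} (hn : 1 ≤ n) :
    ex n n (J (k + 2)) = value n (k + 2) ∧ sat n n (J (k + 2)) = value n (k + 2) := by
  have h := sSup_sInf (P := fun S : Finset (Fin n × Fin n) => Contains (matOf S) (J (k + 2)))
    (v := value n (k + 2)) ?_ (J_card hn)
  · have e1 : {x | ∃ A : Mat n n, ¬ Contains A (J (k + 2)) ∧ x = ones A} =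
        {x | ∃ S : Finset (Fin n × Fin n), ¬ Contains (matOf S) (J (k + 2)) ∧ x = S.card} := by
      ext x
      constructor
      · rintro ⟨A, h1, rfl⟩
        obtain ⟨S, rfl⟩ := matOf_surj A
        exact ⟨S, h1, ones_matOf S⟩
      · rintro ⟨S, h1, rfl⟩
        exact ⟨matOf S, h1, (ones_matOf S).symm⟩
    have e2 : {x | ∃ A : Mat n n, (¬ Contains A (J (k + 2)) ∧
          ∀ i j, A i j = false → Contains (setOne A i j) (J (k + 2))) ∧ x = ones A} =
        {x | ∃ S : Finset (Fin n × Fin n), (¬ Contains (matOf S) (J (k + 2)) ∧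
          ∀ y, y ∉ S → Contains (matOf (insert y S)) (J (k + 2))) ∧ x = S.card} := by
      ext x
      constructor
      · rintro ⟨A, ⟨h1, h2⟩, rfl⟩
        obtain ⟨S, rfl⟩ := matOf_surj A
        refine ⟨S, ⟨h1, ?_⟩, ones_matOf S⟩
        rintro ⟨i, j⟩ hy
        rw [← setOne_matOf]
        apply h2
        simp [matOf, hy]
      · rintro ⟨S, ⟨h1, h2⟩, rfl⟩
        refine ⟨matOf S, ⟨h1, ?_⟩, (ones_matOf S).symm⟩
        intro i j hij
        rw [setOne_matOf]
        apply h2
        simpa [matOf] using hij
    rw [ex, sat, e1, e2]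
    exact h
  · rintro ⟨f, g, _, _, h⟩
    have := h (Fin.last (k + 1)) 0 (by simp [J])
    simp [matOf] at this

/-- **Theorem.** For all `s ≥ 3` and `n ≥ 1` the four numbers `sat(n,n,J_s)`, `ex(n,n,J_s)`,
`sat*([n]², ∨_s)` and `La*([n]², ∨_s)` are equal; their common value is `n²` if `n < s` and
`(s-1)(2n-s+1)` if `n ≥ s`. -/
theorem result : ∀ s : ℕ, 3 ≤ s → ∀ n : ℕ, 1 ≤ n →
    sat n n (J s) = ex n n (J s) ∧ ex n n (J s) = satStar n s ∧ satStar n s = LaStar n s ∧
    LaStar n s = if n < s then n ^ 2 else (s - 1) * (2 * n - s + 1) := by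
  intro s hs n hn
  obtain ⟨k, rfl⟩ : ∃ k, s = k + 2 := ⟨s - 2, by omega⟩
  obtain ⟨h1, h2⟩ := J_numbers (k := k) hn
  obtain ⟨h3, h4⟩ := vee_numbers (s := k + 2) (n := n) (by omega)
  refine ⟨h2.trans h1.symm, h1.trans h4.symm, h4.trans h3.symm, ?_⟩
  rw [h3, value, sq]

end Pool.Agent.Results.MP_eab1c6_co.SaturationEqualsExtremal
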